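import Pool.Agent.X128.ZR.Gen

set_option autoImplicit false

namespace Pool.Agent.X128.ZR

open MeasureTheory Filter Topology Set

variable {Ω : Type*} [MeasurableSpace Ω] {P : Measure Ω} [IsProbabilityMeasure P]
  {g : ℕ → ℝ} {p : ℤ → ℝ} {ζ : ℤ →₀ ℕ} {X : ℝ → Ω → (ℤ →₀ ℕ)}

lemma IsZeroRange.measurable (hX : IsZeroRange P g p ζ X) {t : ℝ} (ht : 0 ≤ t)
    (f : (ℤ →₀ ℕ) → ℝ) : Measurable (fun ω => f (X t ω)) := by
  intro s _
  exact hX.meas t ht (f ⁻¹' s)

lemma IsZeroRange.integrable (hX : IsZeroRange P g p ζ X) {t : ℝ} (ht : 0 ≤ t)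
    {f : (ℤ →₀ ℕ) → ℝ} {K : ℝ} (hf : ∀ᵐ ω ∂P, |f (X t ω)| ≤ K) :
    Integrable (fun ω => f (X t ω)) P :=
  Integrable.of_bound (hX.measurable ht f).aestronglyMeasurable K (by simpa using hf)

/-- the number of particles is conserved -/
lemma IsZeroRange.degree (hX : IsZeroRange P g p ζ X) {t : ℝ} (ht : 0 ≤ t) :
    ∀ᵐ ω ∂P, (X t ω).degree = ζ.degree := by
  classical
  set f : (ℤ →₀ ℕ) → ℝ := fun η => if η.degree = ζ.degree then 0 else 1 with hf
  have hfb : ∀ η, |f η| ≤ 1 := by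
    intro η
    rw [hf]
    simp only
    split_ifs <;> simp
  have hgen : ∀ η, gen g p f η = 0 := by
    intro η
    refine Finset.sum_eq_zero fun x hx => ?_
    have : ∀ y : ℤ, (if y = x then 0 else g (η x) * p (y - x) * (f (move η x y) - f η)) = 0 := by
      intro y
      split_ifs
      · rfl
      · have : f (move η x y) = f η := by
          simp only [hf, degree_move hx]
        rw [this, sub_self, mul_zero]
    simp only [this, tsum_zero]
  have h1 : ∀ s ∈ Icc (0 : ℝ) t, (∫ ω, f (X s ω) ∂P) = ∫ ω, f (X 0 ω) ∂P := by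
    have hd : ∀ s, 0 ≤ s → HasDerivWithinAt (fun s => ∫ ω, f (X s ω) ∂P) 0 (Ici 0) s := by
      intro s hs
      have := hX.forward f ⟨1, hfb⟩ s hs
      simp only [hgen, integral_zero] at this
      exact this
    refine constant_of_has_deriv_right_zero (fun s hs => ?_) (fun s hs => ?_)
    · exact ((hd s hs.1).continuousWithinAt).mono Icc_subset_Ici_self
    · exact (hd s hs.1).mono (Ici_subset_Ici.mpr hs.1)
  have h2 : ∫ ω, f (X 0 ω) ∂P = 0 := by
    have : ∀ᵐ ω ∂P, f (X 0 ω) = 0 := by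
      filter_upwards [hX.start] with ω hω
      simp [hf, hω]
    rw [integral_congr_ae this, integral_zero]
  have h3 : ∫ ω, f (X t ω) ∂P = 0 := by rw [h1 t ⟨ht, le_rfl⟩, h2]
  have h4 : (fun ω => f (X t ω)) =ᵐ[P] 0 := by
    rw [← integral_eq_zero_iff_of_nonneg (fun ω => ?_)
      (hX.integrable ht (Eventually.of_forall fun ω => hfb _))]
    · exact h3
    · simp only [hf, Pi.zero_apply]
      split_ifs <;> norm_num
  filter_upwards [h4] with ω hω
  by_contra hne
  simp [hf, hne] at hω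

lemma IsZeroRange.integrable_gen (hX : IsZeroRange P g p ζ X) (hg0 : ∀ n, 0 ≤ g n)
    (hg : Monotone g) (hp0 : ∀ z, 0 ≤ p z) (hp1 : HasSum p 1) {t : ℝ} (ht : 0 ≤ t)
    {f : (ℤ →₀ ℕ) → ℝ} {B : ℝ} (hf : ∀ η, |f η| ≤ B) :
    Integrable (fun ω => gen g p f (X t ω)) P := by
  refine hX.integrable ht (f := gen g p f) (K := ζ.degree * (g ζ.degree * (2 * B))) ?_
  filter_upwards [hX.degree ht] with ω hω
  rw [← hω]
  exact abs_gen_le hg0 hg hp0 hp1 hf

lemma expH (hX : IsZeroRange P g p ζ X) (hg0 : ∀ n, 0 ≤ g n)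
    (hg : Monotone g) (hp0 : ∀ z, 0 ≤ p z) (hp1 : HasSum p 1) (y : ℤ) (n : ℕ) (hy : n ≤ ζ y)
    {t : ℝ} (ht : 0 ≤ t) : ∫ ω, ((n - (X t ω) y : ℕ) : ℝ) ∂P ≤ g n * t := by
  set f : (ℤ →₀ ℕ) → ℝ := fun ξ => ((n - ξ y : ℕ) : ℝ) with hf
  have hfb : ∀ ξ, |f ξ| ≤ n := by
    intro ξ
    simp only [hf]
    rw [abs_of_nonneg (by positivity)]
    exact_mod_cast Nat.sub_le _ _
  have hd := hX.forward f ⟨n, hfb⟩
  have h1 := image_le_of_deriv_right_le_deriv_boundary (f := fun s => ∫ ω, f (X s ω) ∂P)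
    (f' := fun s => ∫ ω, gen g p f (X s ω) ∂P) (a := 0) (b := t)
    (fun s hs => ((hd s hs.1).continuousWithinAt).mono Icc_subset_Ici_self)
    (fun s hs => (hd s hs.1).mono (Ici_subset_Ici.mpr hs.1))
    (B := fun s => g n * s) (B' := fun _ => g n) ?_ (by fun_prop)
    (fun s _ => by simpa using ((hasDerivAt_id s).const_mul (g n)).hasDerivWithinAt) ?_
  · exact h1 ⟨ht, le_rfl⟩
  · have : ∀ᵐ ω ∂P, f (X 0 ω) = 0 := by
      filter_upwards [hX.start] with ω hω
      simp only [hf, hω]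
      rw [Nat.sub_eq_zero_of_le hy, Nat.cast_zero]
    rw [integral_congr_ae this, integral_zero, mul_zero]
  · intro s hs
    have h2 : ∫ ω, gen g p f (X s ω) ∂P ≤ ∫ _ω, g n ∂P := by
      refine integral_mono (hX.integrable_gen hg0 hg hp0 hp1 hs.1 hfb) (integrable_const _)
        fun ω => ?_
      exact genH hg0 hg hp0 hp1 y n
    simpa using h2

/-- comparison of generator of `(M - η 0)^+` -/
lemma genF' {η : ℤ →₀ ℕ} (h00 : g 0 = 0) (hg0 : ∀ n, 0 ≤ g n) (hg : Monotone g) (hp0 : ∀ z, 0 ≤ p z)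
    (hp1 : HasSum p 1) (y : ℤ) (hy : y ≠ 0) (M n : ℕ) (hM : 0 < M) (hn : 0 < n) :
    gen g p (fun ξ => ((M - ξ 0 : ℕ) : ℝ)) η ≤
      g M - g (n / 2) * p (0 - y) / M * ((M - η 0 : ℕ) : ℝ) +
        g (n / 2) * p (0 - y) * (2 / n) * ((n - η y : ℕ) : ℝ) := by
  refine (genF h00 hg0 hg hp0 hp1 y hy M).trans ?_
  have hMr : (0 : ℝ) < M := by exact_mod_cast hM
  have hnr : (0 : ℝ) < n := by exact_mod_cast hn
  have hp := hp0 (0 - y)
  have ha : 0 ≤ g (n / 2) * p (0 - y) := mul_nonneg (hg0 _) hp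
  set a := g (n / 2) * p (0 - y) with hadef
  have hF1 : ((M - η 0 : ℕ) : ℝ) ≤ M := by exact_mod_cast Nat.sub_le _ _
  have hF0 : (0 : ℝ) ≤ ((M - η 0 : ℕ) : ℝ) := by positivity
  have hH0 : (0 : ℝ) ≤ ((n - η y : ℕ) : ℝ) := by positivity
  have hFM : a / M * ((M - η 0 : ℕ) : ℝ) ≤ a := by
    rw [div_mul_eq_mul_div, div_le_iff₀ hMr]
    exact mul_le_mul_of_nonneg_left hF1 ha
  by_cases hcase : n / 2 ≤ η y
  · have h1 : a ≤ g (η y) * p (0 - y) := mul_le_mul_of_nonneg_right (hg hcase) hp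
    have h2 : 0 ≤ a * (2 / n) * ((n - η y : ℕ) : ℝ) := by positivity
    split_ifs with h3
    · rw [mul_one]; linarith
    · have : (M - η 0 : ℕ) = 0 := by omega
      rw [this]
      simp only [Nat.cast_zero, mul_zero, sub_zero]
      linarith
  · have h1 : n ≤ 2 * (n - η y) := by omega
    have h2 : (n : ℝ) ≤ 2 * ((n - η y : ℕ) : ℝ) := by exact_mod_cast h1
    have h3 : a ≤ a * (2 / n) * ((n - η y : ℕ) : ℝ) := by
      have h4 : 1 ≤ (2 / n) * ((n - η y : ℕ) : ℝ) := by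
        rw [div_mul_eq_mul_div, le_div_iff₀ hnr, one_mul]
        exact h2
      calc a = a * 1 := (mul_one a).symm
        _ ≤ a * ((2 / n) * ((n - η y : ℕ) : ℝ)) := mul_le_mul_of_nonneg_left h4 ha
        _ = _ := by ring
    have h5 : 0 ≤ g (η y) * p (0 - y) * (if η 0 < M then (1 : ℝ) else 0) :=
      mul_nonneg (mul_nonneg (hg0 _) hp) (by split_ifs <;> norm_num)
    linarith

/-- bound for the expectation of `(M - η_t(0))^+` -/
lemma expF (hX : IsZeroRange P g p ζ X) (h00 : g 0 = 0) (hg0 : ∀ n, 0 ≤ g n)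
    (hg : Monotone g) (hp0 : ∀ z, 0 ≤ p z) (hp1 : HasSum p 1) (y : ℤ) (hy0 : y ≠ 0)
    (n M : ℕ) (hn : 0 < n) (hM : 0 < M) (hy : n ≤ ζ y) {C t : ℝ} (ht : 0 ≤ t)
    (hC : g n ≤ C * n) (ha : 0 < g (n / 2) * p (0 - y)) :
    ∫ ω, ((M - (X t ω) 0 : ℕ) : ℝ) ∂P ≤
      M * Real.exp (-(g (n / 2) * p (0 - y) / M * t)) + M * g M / (g (n / 2) * p (0 - y)) +
        2 * M * C * t := by
  set a := g (n / 2) * p (0 - y) with hadef
  set b := a / M with hb
  have hMr : (0 : ℝ) < M := by exact_mod_cast hM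
  have hnr : (0 : ℝ) < n := by exact_mod_cast hn
  have hb0 : 0 < b := div_pos ha hMr
  have hC0 : 0 ≤ C := by
    by_contra hneg
    have := mul_neg_of_neg_of_pos (not_le.mp hneg) hnr
    linarith [hg0 n]
  set f : (ℤ →₀ ℕ) → ℝ := fun ξ => ((M - ξ 0 : ℕ) : ℝ) with hf
  have hfb : ∀ ξ, |f ξ| ≤ M := by
    intro ξ
    simp only [hf]
    rw [abs_of_nonneg (by positivity)]
    exact_mod_cast Nat.sub_le _ _
  set h : (ℤ →₀ ℕ) → ℝ := fun ξ => ((n - ξ y : ℕ) : ℝ) with hh
  have hhb : ∀ ξ, |h ξ| ≤ n := by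
    intro ξ
    simp only [hh]
    rw [abs_of_nonneg (by positivity)]
    exact_mod_cast Nat.sub_le _ _
  set c := g M + 2 * a * C * t with hc
  have hd := hX.forward f ⟨M, hfb⟩
  have key : ∀ s, 0 ≤ s → s ≤ t →
      ∫ ω, gen g p f (X s ω) ∂P ≤ c - b * ∫ ω, f (X s ω) ∂P := by
    intro s hs hst
    have i1 : Integrable (fun ω => f (X s ω)) P :=
      hX.integrable hs (Eventually.of_forall fun ω => hfb _)
    have i2 : Integrable (fun ω => h (X s ω)) P :=
      hX.integrable hs (Eventually.of_forall fun ω => hhb _)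
    have h1 : ∫ ω, gen g p f (X s ω) ∂P ≤
        ∫ ω, (g M - b * f (X s ω) + a * (2 / n) * h (X s ω)) ∂P := by
      refine integral_mono (hX.integrable_gen hg0 hg hp0 hp1 hs hfb)
        (((integrable_const _).sub (i1.const_mul _)).add (i2.const_mul _)) fun ω => ?_
      exact genF' h00 hg0 hg hp0 hp1 y hy0 M n hM hn
    have e1 : ∫ ω, (g M - b * f (X s ω) + a * (2 / n) * h (X s ω)) ∂P =
        ∫ ω, (g M - b * f (X s ω)) ∂P + ∫ ω, a * (2 / n) * h (X s ω) ∂P :=
      integral_add ((integrable_const _).sub (i1.const_mul _)) (i2.const_mul _)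
    have e2 : ∫ ω, (g M - b * f (X s ω)) ∂P = ∫ _ω, g M ∂P - ∫ ω, b * f (X s ω) ∂P :=
      integral_sub (integrable_const _) (i1.const_mul _)
    rw [e1, e2, integral_const_mul, integral_const_mul] at h1
    have h2 : ∫ ω, h (X s ω) ∂P ≤ C * n * t := by
      have := expH hX hg0 hg hp0 hp1 y n hy hs
      calc ∫ ω, h (X s ω) ∂P ≤ g n * s := this
        _ ≤ C * n * t := by gcongr
    have h3 : a * (2 / n) * ∫ ω, h (X s ω) ∂P ≤ a * (2 / n) * (C * n * t) := by gcongr
    have h4 : a * (2 / n) * (C * n * t) = 2 * a * C * t := by field_simp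
    simp only [integral_const, probReal_univ, smul_eq_mul, one_mul] at h1
    rw [hc]
    linarith
  have h0 : ∫ ω, f (X 0 ω) ∂P ≤ M := by
    have : ∫ ω, f (X 0 ω) ∂P ≤ ∫ _ω, (M : ℝ) ∂P :=
      integral_mono (hX.integrable le_rfl (Eventually.of_forall fun ω => hfb _))
        (integrable_const _) fun ω => (abs_le.mp (hfb _)).2
    simpa using this
  have h1 := image_le_of_deriv_right_le_deriv_boundary
    (f := fun s => Real.exp (b * s) * ∫ ω, f (X s ω) ∂P)
    (f' := fun s => Real.exp (b * s) * b * (∫ ω, f (X s ω) ∂P) +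
      Real.exp (b * s) * ∫ ω, gen g p f (X s ω) ∂P) (a := 0) (b := t) ?_ ?_
    (B := fun s => M + c / b * (Real.exp (b * s) - 1)) (B' := fun s => c * Real.exp (b * s))
    ?_ (by fun_prop) ?_ ?_
  · have h2 := h1 ⟨ht, le_rfl⟩
    have e0 : 0 < Real.exp (b * t) := Real.exp_pos _
    have h3 : ∫ ω, f (X t ω) ∂P ≤ Real.exp (-(b * t)) * (M + c / b * (Real.exp (b * t) - 1)) := by
      rw [Real.exp_neg, ← div_eq_inv_mul, le_div_iff₀ e0]
      linarith
    have h4 : Real.exp (-(b * t)) * (M + c / b * (Real.exp (b * t) - 1)) =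
        M * Real.exp (-(b * t)) + c / b * (1 - Real.exp (-(b * t))) := by
      have : Real.exp (-(b * t)) * Real.exp (b * t) = 1 := by rw [← Real.exp_add]; simp
      linear_combination (c / b) * this
    have hc0 : 0 ≤ c := by
      rw [hc]
      have := hg0 M
      positivity
    have h5 : c / b * (1 - Real.exp (-(b * t))) ≤ c / b := by
      have h6 := Real.exp_pos (-(b * t))
      have h7 : 0 ≤ c / b := by positivity
      nlinarith
    have h8 : c / b = M * g M / a + 2 * M * C * t := by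
      rw [hc, hb]
      field_simp
    calc ∫ ω, f (X t ω) ∂P ≤ _ := h3
      _ = _ := h4
      _ ≤ M * Real.exp (-(b * t)) + c / b := by linarith
      _ = _ := by rw [h8]; ring
  · intro s hs
    exact (Continuous.continuousWithinAt (by fun_prop)).mul
      (((hd s hs.1).continuousWithinAt).mono Icc_subset_Ici_self)
  · intro s hs
    have e1 : HasDerivWithinAt (fun s => Real.exp (b * s)) (Real.exp (b * s) * b) (Ici s) s := by
      simpa using (((hasDerivAt_id s).const_mul b).exp).hasDerivWithinAt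
    exact e1.mul ((hd s hs.1).mono (Ici_subset_Ici.mpr hs.1))
  · simp only [mul_zero, Real.exp_zero, one_mul, sub_self, add_zero]
    exact h0
  · intro s _
    have e1 : HasDerivAt (fun s => Real.exp (b * s)) (Real.exp (b * s) * b) s := by
      simpa using ((hasDerivAt_id s).const_mul b).exp
    have e2 := ((e1.sub_const 1).const_mul (c / b)).const_add (M : ℝ)
    refine e2.hasDerivWithinAt.congr_deriv ?_
    field_simp
  · intro s hs
    have h2 := key s hs.1 hs.2.le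
    have e0 : 0 < Real.exp (b * s) := Real.exp_pos _
    nlinarith [mul_le_mul_of_nonneg_left h2 e0.le]

end Pool.Agent.X128.ZR
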