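import Mathlib

set_option autoImplicit false

namespace Pool.Agent.X128.ZR

open MeasureTheory Filter Topology Set

/-- The configuration `η` with one particle moved from `x` to `y`. -/
noncomputable def move (η : ℤ →₀ ℕ) (x y : ℤ) : ℤ →₀ ℕ :=
  η - Finsupp.single x 1 + Finsupp.single y 1

/-- The generator of the zero-range process with rate function `g` and jump kernel
`p(x, y) = p(y - x)` on finite configurations:
`L f (η) = ∑_{x ≠ y} g(η(x)) p(y - x) (f(η^{x,y}) - f(η))`; the terms with `η(x) = 0` vanish. -/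
noncomputable def gen (g : ℕ → ℝ) (p : ℤ → ℝ) (f : (ℤ →₀ ℕ) → ℝ) (η : ℤ →₀ ℕ) : ℝ :=
  ∑ x ∈ η.support, ∑' y : ℤ,
    if y = x then 0 else g (η x) * p (y - x) * (f (move η x y) - f η)

/-- `X` is a zero-range process started from the finite configuration `ζ`. -/
structure IsZeroRange {Ω : Type*} [MeasurableSpace Ω] (P : Measure Ω) (g : ℕ → ℝ) (p : ℤ → ℝ)
    (ζ : ℤ →₀ ℕ) (X : ℝ → Ω → (ℤ →₀ ℕ)) : Prop where
  meas : ∀ t, 0 ≤ t → ∀ A : Set (ℤ →₀ ℕ), MeasurableSet (X t ⁻¹' A)
  start : ∀ᵐ ω ∂P, X 0 ω = ζ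
  forward : ∀ f : (ℤ →₀ ℕ) → ℝ, (∃ B, ∀ η, |f η| ≤ B) → ∀ t, 0 ≤ t →
    HasDerivWithinAt (fun s => ∫ ω, f (X s ω) ∂P) (∫ ω, gen g p f (X t ω) ∂P) (Ici 0) t

variable {g : ℕ → ℝ} {p : ℤ → ℝ} {f : (ℤ →₀ ℕ) → ℝ} {η : ℤ →₀ ℕ} {x y z : ℤ} {B c : ℝ}

lemma move_apply (_hx : x ∈ η.support) (u : ℤ) :
    move η x y u = η u - (if u = x then 1 else 0) + (if u = y then 1 else 0) := by
  simp [move, Finsupp.single_apply, eq_comm]

lemma degree_move (hx : x ∈ η.support) : (move η x y).degree = η.degree := by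
  have h1 : Finsupp.single x 1 ≤ η := by
    rw [Finsupp.single_le_iff]
    exact Nat.one_le_iff_ne_zero.mpr (Finsupp.mem_support_iff.mp hx)
  have h2 : (η - Finsupp.single x 1) + Finsupp.single x 1 = η := tsub_add_cancel_of_le h1
  have h3 : ((η - Finsupp.single x 1) + Finsupp.single x 1).degree = η.degree := by rw [h2]
  rw [map_add, Finsupp.degree_single] at h3
  rw [move, map_add, Finsupp.degree_single, h3]

lemma hasSum_shift (hp1 : HasSum p 1) (x : ℤ) : HasSum (fun y => p (y - x)) 1 :=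
  (Equiv.subRight x).hasSum_iff.mpr hp1

lemma summ (hp0 : ∀ z, 0 ≤ p z) (hp1 : HasSum p 1) (hf : ∀ η, |f η| ≤ B) (x : ℤ) (c : ℝ) :
    Summable (fun y => if y = x then 0 else c * p (y - x) * (f (move η x y) - f η)) := by
  refine Summable.of_norm_bounded (g := fun y => p (y - x) * (|c| * (2 * B)))
    ((hasSum_shift hp1 x).summable.mul_right _) fun y => ?_
  have hB : 0 ≤ B := (abs_nonneg _).trans (hf η)
  have h0 := hp0 (y - x)
  split_ifs with h
  · rw [norm_zero]; positivity
  · rw [Real.norm_eq_abs, abs_mul, abs_mul, abs_of_nonneg h0]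
    have h1 : |f (move η x y) - f η| ≤ 2 * B := by
      have := abs_sub (f (move η x y)) (f η)
      linarith [hf (move η x y), hf η]
    calc |c| * p (y - x) * |f (move η x y) - f η| ≤ |c| * p (y - x) * (2 * B) := by gcongr
      _ = p (y - x) * (|c| * (2 * B)) := by ring

lemma inner_le (hg : 0 ≤ g (η x)) (hp0 : ∀ z, 0 ≤ p z) (hp1 : HasSum p 1)
    (hf : ∀ η, |f η| ≤ B) (hc : 0 ≤ c) (h : ∀ y, y ≠ x → f (move η x y) - f η ≤ c) :
    (∑' y : ℤ, if y = x then 0 else g (η x) * p (y - x) * (f (move η x y) - f η)) ≤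
      g (η x) * c := by
  have h1 := ((hasSum_shift hp1 x).mul_left (g (η x) * c))
  rw [mul_one] at h1
  rw [← h1.tsum_eq]
  refine Summable.tsum_le_tsum (fun y => ?_) (summ hp0 hp1 hf x _) h1.summable
  have h0 := hp0 (y - x)
  split_ifs with hy
  · positivity
  · have := h y hy
    calc g (η x) * p (y - x) * (f (move η x y) - f η) ≤ g (η x) * p (y - x) * c := by gcongr
      _ = g (η x) * c * p (y - x) := by ring

lemma inner_le_one (hg : 0 ≤ g (η x)) (hp0 : ∀ z, 0 ≤ p z) (hp1 : HasSum p 1)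
    (hf : ∀ η, |f η| ≤ B) (hz : z ≠ x) (h : ∀ y, y ≠ x → f (move η x y) - f η ≤ 0)
    (h' : f (move η x z) - f η ≤ -c) :
    (∑' y : ℤ, if y = x then 0 else g (η x) * p (y - x) * (f (move η x y) - f η)) ≤
      -(g (η x) * p (z - x) * c) := by
  have h1 : HasSum (fun y => if y = z then -(g (η x) * p (z - x) * c) else 0)
      (-(g (η x) * p (z - x) * c)) := hasSum_ite_eq z _
  rw [← h1.tsum_eq]
  refine Summable.tsum_le_tsum (fun y => ?_) (summ hp0 hp1 hf x _) h1.summable
  have h0 := hp0 (y - x)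
  have h0' := hp0 (z - x)
  by_cases hyz : y = z
  · subst hyz
    rw [if_neg hz, if_pos rfl]
    have : g (η x) * p (y - x) * (f (move η x y) - f η) ≤ g (η x) * p (y - x) * (-c) := by gcongr
    linarith
  · rw [if_neg hyz]
    split_ifs with hy
    · exact le_refl _
    · exact mul_nonpos_of_nonneg_of_nonpos (mul_nonneg hg h0) (h y hy)

lemma abs_gen_le (hg0 : ∀ n, 0 ≤ g n) (hg : Monotone g) (hp0 : ∀ z, 0 ≤ p z) (hp1 : HasSum p 1)
    (hf : ∀ η, |f η| ≤ B) : |gen g p f η| ≤ η.degree * (g η.degree * (2 * B)) := by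
  have hB : 0 ≤ B := (abs_nonneg _).trans (hf η)
  have h1 : ∀ x ∈ η.support, |∑' y : ℤ, if y = x then 0 else
      g (η x) * p (y - x) * (f (move η x y) - f η)| ≤ η x * (g η.degree * (2 * B)) := by
    intro x hx
    have h2 : η x ≤ η.degree := Finsupp.le_degree x η
    have h3 := hg h2
    have h4 : (1 : ℝ) ≤ η x := by
      have : 1 ≤ η x := Nat.one_le_iff_ne_zero.mpr (Finsupp.mem_support_iff.mp hx)
      exact_mod_cast this
    have h6 : ∀ y, |f (move η x y) - f η| ≤ 2 * B := by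
      intro y
      have := abs_sub (f (move η x y)) (f η)
      linarith [hf (move η x y), hf η]
    have h5 : |∑' y : ℤ, if y = x then 0 else
      g (η x) * p (y - x) * (f (move η x y) - f η)| ≤ g (η x) * (2 * B) := by
      rw [abs_le]
      constructor
      · have h7 := inner_le (g := g) (p := p) (f := fun ξ => - f ξ) (η := η) (x := x) (B := B)
          (c := 2 * B) (hg0 _) hp0 hp1 (fun ξ => by rw [abs_neg]; exact hf ξ) (by positivity)
          (fun y _ => by have := (abs_le.mp (h6 y)).1; linarith)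
        have h8 : (∑' y : ℤ, if y = x then 0 else g (η x) * p (y - x) *
            (-f (move η x y) - -f η)) = -∑' y : ℤ, if y = x then 0 else
            g (η x) * p (y - x) * (f (move η x y) - f η) := by
          rw [← tsum_neg]
          refine tsum_congr fun y => ?_
          split_ifs <;> ring
        rw [h8] at h7
        linarith
      · exact inner_le (hg0 _) hp0 hp1 hf (by positivity) (fun y _ => (abs_le.mp (h6 y)).2)
    refine h5.trans ?_
    have h9 : 0 ≤ g η.degree * (2 * B) := mul_nonneg (hg0 _) (by positivity)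
    calc g (η x) * (2 * B) ≤ g η.degree * (2 * B) := by gcongr
      _ ≤ η x * (g η.degree * (2 * B)) := le_mul_of_one_le_left h9 h4
  calc |gen g p f η| ≤ ∑ x ∈ η.support, |∑' y : ℤ, if y = x then 0 else
        g (η x) * p (y - x) * (f (move η x y) - f η)| := Finset.abs_sum_le_sum_abs _ _
    _ ≤ ∑ x ∈ η.support, η x * (g η.degree * (2 * B)) := Finset.sum_le_sum h1
    _ = η.degree * (g η.degree * (2 * B)) := by
      rw [← Finset.sum_mul]
      congr 1
      rw [Finsupp.degree_apply]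
      push_cast
      rfl

lemma genH (hg0 : ∀ n, 0 ≤ g n) (hg : Monotone g) (hp0 : ∀ z, 0 ≤ p z) (hp1 : HasSum p 1)
    (y : ℤ) (n : ℕ) : gen g p (fun ξ => ((n - ξ y : ℕ) : ℝ)) η ≤ g n := by
  have hf : ∀ ξ : ℤ →₀ ℕ, |((n - ξ y : ℕ) : ℝ)| ≤ n := by
    intro ξ
    rw [abs_of_nonneg (by positivity)]
    exact_mod_cast Nat.sub_le _ _
  have h1 : ∀ x ∈ η.support, (∑' w : ℤ, if w = x then 0 else g (η x) * p (w - x) *
      ((fun ξ : ℤ →₀ ℕ => ((n - ξ y : ℕ) : ℝ)) (move η x w) -
        (fun ξ : ℤ →₀ ℕ => ((n - ξ y : ℕ) : ℝ)) η)) ≤ if x = y then g n else 0 := by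
    intro x hx
    by_cases hxy : x = y
    · subst hxy
      rw [if_pos rfl]
      by_cases hn : η x ≤ n
      · have h2 := inner_le (g := g) (p := p) (η := η) (x := x) (B := n) (c := 1)
          (f := fun ξ : ℤ →₀ ℕ => ((n - ξ x : ℕ) : ℝ)) (hg0 _) hp0 hp1 hf zero_le_one
          (fun w hw => by
            have h3 : (n - move η x w x : ℕ) ≤ (n - η x) + 1 := by
              rw [move_apply hx, if_pos rfl, if_neg hw.symm]; omega
            have h4 : ((n - move η x w x : ℕ) : ℝ) ≤ ((n - η x : ℕ) : ℝ) + 1 := by exact_mod_cast h3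
            linarith)
        rw [mul_one] at h2
        exact h2.trans (hg hn)
      · have h2 := inner_le (g := g) (p := p) (η := η) (x := x) (B := n) (c := 0)
          (f := fun ξ : ℤ →₀ ℕ => ((n - ξ x : ℕ) : ℝ)) (hg0 _) hp0 hp1 hf le_rfl
          (fun w hw => by
            have h3 : (n - move η x w x : ℕ) ≤ (n - η x) := by
              rw [move_apply hx, if_pos rfl, if_neg hw.symm]; omega
            have h4 : ((n - move η x w x : ℕ) : ℝ) ≤ ((n - η x : ℕ) : ℝ) := by exact_mod_cast h3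
            linarith)
        rw [mul_zero] at h2
        exact h2.trans (hg0 _)
    · rw [if_neg hxy]
      have h2 := inner_le (g := g) (p := p) (η := η) (x := x) (B := n) (c := 0)
        (f := fun ξ : ℤ →₀ ℕ => ((n - ξ y : ℕ) : ℝ)) (hg0 _) hp0 hp1 hf le_rfl
        (fun w hw => by
          have h3 : (n - move η x w y : ℕ) ≤ (n - η y) := by
            rw [move_apply hx, if_neg (Ne.symm hxy)]; omega
          have h4 : ((n - move η x w y : ℕ) : ℝ) ≤ ((n - η y : ℕ) : ℝ) := by exact_mod_cast h3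
          linarith)
      rwa [mul_zero] at h2
  calc gen g p (fun ξ => ((n - ξ y : ℕ) : ℝ)) η ≤ ∑ x ∈ η.support, (if x = y then g n else 0) :=
        Finset.sum_le_sum h1
    _ ≤ g n := by
      rw [Finset.sum_ite_eq']
      split_ifs
      · exact le_rfl
      · exact hg0 _

lemma genF (h00 : g 0 = 0) (hg0 : ∀ n, 0 ≤ g n) (hg : Monotone g) (hp0 : ∀ z, 0 ≤ p z)
    (hp1 : HasSum p 1) (y : ℤ) (hy : y ≠ 0) (M : ℕ) :
    gen g p (fun ξ => ((M - ξ 0 : ℕ) : ℝ)) η ≤
      g M - g (η y) * p (0 - y) * (if η 0 < M then 1 else 0) := by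
  have hf : ∀ ξ : ℤ →₀ ℕ, |((M - ξ 0 : ℕ) : ℝ)| ≤ M := by
    intro ξ
    rw [abs_of_nonneg (by positivity)]
    exact_mod_cast Nat.sub_le _ _
  have h1 : ∀ x ∈ η.support, (∑' w : ℤ, if w = x then 0 else g (η x) * p (w - x) *
      ((fun ξ : ℤ →₀ ℕ => ((M - ξ 0 : ℕ) : ℝ)) (move η x w) -
        (fun ξ : ℤ →₀ ℕ => ((M - ξ 0 : ℕ) : ℝ)) η)) ≤
      (if x = 0 then g M else 0) +
        (if x = y then -(g (η y) * p (0 - y) * (if η 0 < M then 1 else 0)) else 0) := by
    intro x hx
    by_cases hx0 : x = 0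
    · subst hx0
      rw [if_pos rfl, if_neg (Ne.symm hy), add_zero]
      by_cases hn : η 0 ≤ M
      · have h2 := inner_le (g := g) (p := p) (η := η) (x := 0) (B := M) (c := 1)
          (f := fun ξ : ℤ →₀ ℕ => ((M - ξ 0 : ℕ) : ℝ)) (hg0 _) hp0 hp1 hf zero_le_one
          (fun w hw => by
            have h3 : (M - move η 0 w 0 : ℕ) ≤ (M - η 0) + 1 := by
              rw [move_apply hx, if_pos rfl, if_neg hw.symm]; omega
            have h4 : ((M - move η 0 w 0 : ℕ) : ℝ) ≤ ((M - η 0 : ℕ) : ℝ) + 1 := by exact_mod_cast h3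
            linarith)
        rw [mul_one] at h2
        exact h2.trans (hg hn)
      · have h2 := inner_le (g := g) (p := p) (η := η) (x := 0) (B := M) (c := 0)
          (f := fun ξ : ℤ →₀ ℕ => ((M - ξ 0 : ℕ) : ℝ)) (hg0 _) hp0 hp1 hf le_rfl
          (fun w hw => by
            have h3 : (M - move η 0 w 0 : ℕ) ≤ (M - η 0) := by
              rw [move_apply hx, if_pos rfl, if_neg hw.symm]; omega
            have h4 : ((M - move η 0 w 0 : ℕ) : ℝ) ≤ ((M - η 0 : ℕ) : ℝ) := by exact_mod_cast h3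
            linarith)
        rw [mul_zero] at h2
        exact h2.trans (hg0 _)
    · rw [if_neg hx0, zero_add]
      have h5 : ∀ w, w ≠ x → ((fun ξ : ℤ →₀ ℕ => ((M - ξ 0 : ℕ) : ℝ)) (move η x w) -
        (fun ξ : ℤ →₀ ℕ => ((M - ξ 0 : ℕ) : ℝ)) η) ≤ 0 := by
        intro w hw
        have h3 : (M - move η x w 0 : ℕ) ≤ (M - η 0) := by
          rw [move_apply hx, if_neg (Ne.symm hx0)]; omega
        have h4 : ((M - move η x w 0 : ℕ) : ℝ) ≤ ((M - η 0 : ℕ) : ℝ) := by exact_mod_cast h3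
        simp only
        linarith
      by_cases hxy : x = y
      · subst hxy
        rw [if_pos rfl]
        refine inner_le_one (g := g) (p := p) (η := η) (x := x) (B := M)
          (f := fun ξ : ℤ →₀ ℕ => ((M - ξ 0 : ℕ) : ℝ)) (hg0 _) hp0 hp1 hf (Ne.symm hx0) h5 ?_
        split_ifs with hM
        · have h3 : (M - move η x 0 0 : ℕ) + 1 ≤ (M - η 0) := by
            rw [move_apply hx, if_neg (Ne.symm hx0), if_pos rfl]; omega
          have h4 : ((M - move η x 0 0 : ℕ) : ℝ) + 1 ≤ ((M - η 0 : ℕ) : ℝ) := by exact_mod_cast h3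
          linarith
        · rw [neg_zero]
          exact h5 0 (Ne.symm hx0)
      · rw [if_neg hxy]
        have h2 := inner_le (g := g) (p := p) (η := η) (x := x) (B := M) (c := 0)
          (f := fun ξ : ℤ →₀ ℕ => ((M - ξ 0 : ℕ) : ℝ)) (hg0 _) hp0 hp1 hf le_rfl h5
        rwa [mul_zero] at h2
  calc gen g p (fun ξ => ((M - ξ 0 : ℕ) : ℝ)) η ≤ ∑ x ∈ η.support, ((if x = 0 then g M else 0) +
        (if x = y then -(g (η y) * p (0 - y) * (if η 0 < M then 1 else 0)) else 0)) :=
        Finset.sum_le_sum h1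
    _ ≤ g M - g (η y) * p (0 - y) * (if η 0 < M then 1 else 0) := by
      rw [Finset.sum_add_distrib, Finset.sum_ite_eq', Finset.sum_ite_eq', sub_eq_add_neg]
      refine add_le_add ?_ ?_
      · split_ifs
        · exact le_rfl
        · exact hg0 _
      · by_cases hys : y ∈ η.support
        · rw [if_pos hys]
        · rw [if_neg hys]
          have : η y = 0 := Finsupp.notMem_support_iff.mp hys
          rw [this, h00]
          simp

end Pool.Agent.X128.ZR
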